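import Pool.Agent.Q83.BL.Stm

/-! # Project BL (helper83): S_BAD (helper154) -/

set_option autoImplicit false

namespace Pool.Agent.Q154.BL

open Q83.BL MeasureTheory
open scoped ENNReal

theorem coe_fd {Ω : Type} [MeasurableSpace Ω] {μ : Measure Ω} (u : ℕ → Lp ℂ 2 μ) (N i : ℕ) :
    (fd N u i : Lp ℂ 2 μ) =ᵐ[μ] fun z => fd N (fun j => u j z) i := by
  induction N generalizing i with
  | zero => exact Filter.EventuallyEq.rfl
  | succ N ih =>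
    show (fd N u (i + 1) - fd N u i : Lp ℂ 2 μ) =ᵐ[μ] _
    filter_upwards [ih (i + 1), ih i, Lp.coeFn_sub (fd N u (i + 1)) (fd N u i)] with z h1 h2 h3
    rw [h3, Pi.sub_apply, h1, h2]
    rfl

theorem cheb {Ω : Type} [MeasurableSpace Ω] {μ : Measure Ω} [IsProbabilityMeasure μ]
    (f : Lp ℂ 2 μ) {δ r : ℝ} (hδ : 0 < δ) (hr : ‖f‖ ≤ r) :
    μ.real {z | δ ≤ ‖f z‖} ≤ 1 / δ ^ 2 * r ^ 2 := by
  have h1 := mul_meas_ge_le_pow_eLpNorm' μ (p := 2) (by norm_num) (by norm_num)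
    (Lp.aestronglyMeasurable f) (ENNReal.ofReal δ)
  have h2 : {z | ENNReal.ofReal δ ≤ ‖f z‖ₑ} = {z | δ ≤ ‖f z‖} := by
    ext z
    simp only [Set.mem_ofPred_eq]
    rw [← ofReal_norm, ENNReal.ofReal_le_ofReal_iff (norm_nonneg _)]
  rw [h2] at h1
  have h3 : (eLpNorm f 2 μ) = ENNReal.ofReal ‖f‖ := by
    rw [Lp.norm_def, ENNReal.ofReal_toReal (Lp.eLpNorm_ne_top f)]
  rw [h3] at h1
  simp only [ENNReal.toReal_ofNat, ENNReal.rpow_ofNat] at h1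
  have h4 := ENNReal.toReal_mono (by finiteness) h1
  rw [ENNReal.toReal_mul, ENNReal.toReal_pow, ENNReal.toReal_pow, ENNReal.toReal_ofReal hδ.le,
    ENNReal.toReal_ofReal (norm_nonneg f)] at h4
  have h5 : ‖f‖ ^ 2 ≤ r ^ 2 := pow_le_pow_left₀ (norm_nonneg f) hr 2
  have h6 : (μ {z | δ ≤ ‖f z‖}).toReal = μ.real {z | δ ≤ ‖f z‖} := rfl
  rw [h6] at h4
  rw [div_mul_eq_mul_div, one_mul, le_div_iff₀ (by positivity)]
  linarith

theorem t_BAD (h : S_DIF) : S_BAD := by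
  intro N K hN
  obtain ⟨J, δ, hδ, H⟩ := h N K hN
  refine ⟨J, ((J + 1 : ℕ) : ℝ) * (1 / δ ^ 2), fun Ω _ μ _ u hu r hr => ?_⟩
  have h1 : {z | 1 / 2 ≤ ‖u 1 z - u 0 z‖} ≤ᵐ[μ]
      (⋃ i ∈ Finset.range (J + 1), {z | δ ≤ ‖fd N u i z‖} : Set Ω) := by
    have h2 : ∀ᵐ z ∂μ, ∀ j, ‖u j z‖ ≤ K := ae_all_iff.2 hu
    have h3 : ∀ᵐ z ∂μ, ∀ i, fd N u i z = fd N (fun j => u j z) i :=
      ae_all_iff.2 fun i => coe_fd u N i
    filter_upwards [h2, h3] with z hz2 hz3 hz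
    have hz' : 1 / 2 ≤ ‖u 1 z - u 0 z‖ := hz
    by_contra hc
    have hc' : ∀ i ≤ J, ‖fd N (fun j => u j z) i‖ ≤ δ := by
      intro i hi
      by_contra hlt
      push Not at hlt
      apply hc
      have : z ∈ ⋃ i ∈ Finset.range (J + 1), {z | δ ≤ ‖fd N u i z‖} := by
        simp only [Set.mem_iUnion, Set.mem_ofPred_eq]
        refine ⟨i, Finset.mem_range.2 (by omega), ?_⟩
        rw [hz3]
        exact hlt.le
      exact this
    have h4 := H (fun j => u j z) hz2 hc'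
    linarith
  calc μ.real {z | 1 / 2 ≤ ‖u 1 z - u 0 z‖}
      ≤ μ.real (⋃ i ∈ Finset.range (J + 1), {z | δ ≤ ‖fd N u i z‖}) :=
        ENNReal.toReal_mono (measure_ne_top _ _) (measure_mono_ae h1)
    _ ≤ ∑ i ∈ Finset.range (J + 1), μ.real {z | δ ≤ ‖fd N u i z‖} :=
        measureReal_biUnion_finset_le _ _
    _ ≤ ∑ _i ∈ Finset.range (J + 1), 1 / δ ^ 2 * r ^ 2 :=
        Finset.sum_le_sum fun i hi => cheb _ hδ (hr i (by
          have := Finset.mem_range.1 hi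
          omega))
    _ = ((J + 1 : ℕ) : ℝ) * (1 / δ ^ 2) * r ^ 2 := by
        rw [Finset.sum_const, Finset.card_range, nsmul_eq_mul, mul_assoc]

end Pool.Agent.Q154.BL
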