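import Pool.Agent.Q83.BL.Stm

/-! # Project BL (helper83): S_DIF (helper154) -/

set_option autoImplicit false

namespace Pool.Agent.Q154.BL

open Q83.BL

theorem fd_bound {K : ℝ} {u : ℕ → ℂ} (hu : ∀ j, ‖u j‖ ≤ K) (M i : ℕ) :
    ‖fd M u i‖ ≤ 2 ^ M * K := by
  induction M generalizing i with
  | zero => simpa [fd] using hu i
  | succ M ih =>
    have h1 : ‖fd M u (i + 1) - fd M u i‖ ≤ ‖fd M u (i + 1)‖ + ‖fd M u i‖ := norm_sub_le _ _
    have h2 := ih (i + 1)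
    have h3 := ih i
    show ‖fd M u (i + 1) - fd M u i‖ ≤ _
    rw [pow_succ]
    linarith

theorem dif_aux (N : ℕ) (K e : ℝ) (he : 0 < e) : ∃ (J : ℕ) (δ : ℝ), 0 < δ ∧ ∀ u : ℕ → ℂ,
    (∀ j, ‖u j‖ ≤ K) → (∀ i ≤ J, ‖fd (N + 1) u i‖ ≤ δ) → ‖u 1 - u 0‖ ≤ e := by
  induction N with
  | zero =>
    exact ⟨0, e, he, fun u _ h => h 0 le_rfl⟩
  | succ N ih =>
    obtain ⟨J₁, δ₁, hδ₁, H⟩ := ih
    obtain ⟨L, hL⟩ := exists_nat_gt (2 * (2 * (2 ^ N * |K|)) / δ₁)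
    have hL0 : (0 : ℝ) < L := lt_of_le_of_lt (by positivity) hL
    have hL' : 2 * (2 ^ N * |K|) < L * δ₁ / 2 := by
      rw [div_lt_iff₀ hδ₁] at hL
      linarith
    refine ⟨J₁ + L, δ₁ / (2 * L), by positivity, fun u hu h => H u hu fun i₀ hi₀ => ?_⟩
    by_contra hlt
    push Not at hlt
    obtain ⟨δ, hδ⟩ : ∃ δ : ℝ, δ = δ₁ / (2 * L) := ⟨_, rfl⟩
    rw [← hδ] at h
    have hδ0 : 0 < δ := by rw [hδ]; positivity
    have hLδ : L * δ = δ₁ / 2 := by rw [hδ]; field_simp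
    have h1 : ∀ r : ℕ, r ≤ L → ‖fd (N + 1) u (i₀ + r) - fd (N + 1) u i₀‖ ≤ r * δ := by
      intro r hr
      induction r with
      | zero => simp
      | succ r ihr =>
        have h2 := ihr (by omega)
        have h3 : ‖fd (N + 1) u (i₀ + r + 1) - fd (N + 1) u (i₀ + r)‖ ≤ δ := h (i₀ + r) (by omega)
        have h4 : fd (N + 1) u (i₀ + (r + 1)) - fd (N + 1) u i₀ =
            (fd (N + 1) u (i₀ + r + 1) - fd (N + 1) u (i₀ + r)) +
              (fd (N + 1) u (i₀ + r) - fd (N + 1) u i₀) := by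
          rw [← add_assoc]; ring
        rw [h4, Nat.cast_succ]
        refine (norm_add_le _ _).trans ?_
        linarith
    have h2 : ∀ r : ℕ, r ≤ L → ‖fd N u (i₀ + r) - fd N u i₀ - (r : ℂ) * fd (N + 1) u i₀‖ ≤
        r * (L * δ) := by
      intro r hr
      induction r with
      | zero => simp
      | succ r ihr =>
        have h3 := ihr (by omega)
        have h4 := h1 r (by omega)
        have h5 : fd N u (i₀ + (r + 1)) - fd N u i₀ - ((r + 1 : ℕ) : ℂ) * fd (N + 1) u i₀ =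
            (fd N u (i₀ + r) - fd N u i₀ - (r : ℂ) * fd (N + 1) u i₀) +
              (fd (N + 1) u (i₀ + r) - fd (N + 1) u i₀) := by
          have h6 : fd (N + 1) u (i₀ + r) = fd N u (i₀ + r + 1) - fd N u (i₀ + r) := rfl
          rw [h6, ← add_assoc]; push_cast; ring
        rw [h5]
        refine (norm_add_le _ _).trans ?_
        have h7 : (r : ℝ) * δ ≤ L * δ := by
          refine mul_le_mul_of_nonneg_right ?_ hδ0.le
          exact_mod_cast (by omega : r ≤ L)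
        push_cast
        linarith
    have h3 := h2 L le_rfl
    have h4 : ‖(L : ℂ) * fd (N + 1) u i₀‖ = L * ‖fd (N + 1) u i₀‖ := by
      rw [norm_mul, Complex.norm_natCast]
    have h5 : ‖(L : ℂ) * fd (N + 1) u i₀‖ ≤ ‖fd N u (i₀ + L) - fd N u i₀‖ +
        ‖fd N u (i₀ + L) - fd N u i₀ - (L : ℂ) * fd (N + 1) u i₀‖ := by
      have h6 : (L : ℂ) * fd (N + 1) u i₀ = (fd N u (i₀ + L) - fd N u i₀) -
          (fd N u (i₀ + L) - fd N u i₀ - (L : ℂ) * fd (N + 1) u i₀) := by ring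
      calc ‖(L : ℂ) * fd (N + 1) u i₀‖ = ‖(fd N u (i₀ + L) - fd N u i₀) -
          (fd N u (i₀ + L) - fd N u i₀ - (L : ℂ) * fd (N + 1) u i₀)‖ := by rw [← h6]
        _ ≤ _ := norm_sub_le _ _
    have h6 : ‖fd N u (i₀ + L) - fd N u i₀‖ ≤ 2 * (2 ^ N * |K|) := by
      have h7 := norm_sub_le (fd N u (i₀ + L)) (fd N u i₀)
      have hK : K ≤ |K| := le_abs_self K
      have h8 := fd_bound (fun j => (hu j).trans hK) N (i₀ + L)
      have h9 := fd_bound (fun j => (hu j).trans hK) N i₀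
      linarith
    rw [hLδ] at h3
    have h7 : L * δ₁ < L * ‖fd (N + 1) u i₀‖ := mul_lt_mul_of_pos_left hlt hL0
    rw [h4] at h5
    have h8 : (L : ℝ) * (δ₁ / 2) = L * δ₁ / 2 := by ring
    linarith

theorem t_DIF : S_DIF := by
  intro N K hN
  obtain ⟨N, rfl⟩ : ∃ M, N = M + 1 := ⟨N - 1, by omega⟩
  obtain ⟨J, δ, hδ, H⟩ := dif_aux N K (1 / 4) (by norm_num)
  exact ⟨J, δ, hδ, fun u hu h => lt_of_le_of_lt (H u hu h) (by norm_num)⟩

end Pool.Agent.Q154.BL
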