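import Pool.Agent.Q83.BL.Stm

/-! # Project BL (helper83): S_PHI (helper154) -/

set_option autoImplicit false

namespace Pool.Agent.Q154.BL

open Q83.BL Complex

theorem symp {l : ℕ} {M : Matrix (Fin l ⊕ Fin l) (Fin l ⊕ Fin l) ℝ}
    (hM : M.transpose * Matrix.fromBlocks 0 1 (-1) 0 * M = Matrix.fromBlocks 0 1 (-1) 0)
    (v w : Fin l ⊕ Fin l → ℝ) :
    ∑ i : Fin l, ((∑ j, M (Sum.inl i) j * v j) * (∑ j, M (Sum.inr i) j * w j) -
      (∑ j, M (Sum.inr i) j * v j) * (∑ j, M (Sum.inl i) j * w j)) =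
      ∑ i : Fin l, (v (Sum.inl i) * w (Sum.inr i) - v (Sum.inr i) * w (Sum.inl i)) := by
  have hJ : ∀ a b : Fin l ⊕ Fin l → ℝ,
      a ⬝ᵥ ((Matrix.fromBlocks 0 1 (-1) 0 : Matrix (Fin l ⊕ Fin l) (Fin l ⊕ Fin l) ℝ).mulVec b) =
      ∑ i : Fin l, (a (Sum.inl i) * b (Sum.inr i) - a (Sum.inr i) * b (Sum.inl i)) := by
    intro a b
    rw [dotProduct, Fintype.sum_sum_type, ← Finset.sum_add_distrib]
    refine Finset.sum_congr rfl fun i _ => ?_
    have h1 : (Matrix.fromBlocks 0 1 (-1) 0 : Matrix (Fin l ⊕ Fin l) (Fin l ⊕ Fin l) ℝ).mulVec b =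
        Sum.elim (fun i => b (Sum.inr i)) (fun i => -b (Sum.inl i)) := by
      rw [Matrix.fromBlocks_mulVec]
      congr 1
      · funext i
        simp [Matrix.zero_mulVec, Matrix.one_mulVec]
      · funext i
        simp [Matrix.zero_mulVec, Matrix.neg_mulVec, Matrix.one_mulVec]
    rw [h1, Sum.elim_inl, Sum.elim_inr]
    ring
  have h1 := hJ (M.mulVec v) (M.mulVec w)
  have h2 := hJ v w
  rw [← hM, ← Matrix.mulVec_mulVec, ← Matrix.mulVec_mulVec, Matrix.dotProduct_mulVec v,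
    Matrix.vecMul_transpose] at h2
  rw [h1] at h2
  exact h2

theorem t_PHI : S_PHI := by
  intro l M hM
  obtain ⟨x, hx⟩ : ∃ x : (Fin l ⊕ Fin l → ℤ) → Fin l → ℝ,
      ∀ n i, x n i = ∑ j, M (Sum.inl i) j * (n j : ℝ) := ⟨_, fun _ _ => rfl⟩
  obtain ⟨y, hy⟩ : ∃ y : (Fin l ⊕ Fin l → ℤ) → Fin l → ℝ,
      ∀ n i, y n i = ∑ j, M (Sum.inr i) j * (n j : ℝ) := ⟨_, fun _ _ => rfl⟩
  have hxa : ∀ n n' i, x (n + n') i = x n i + x n' i := by
    intro n n' i
    rw [hx, hx, hx, ← Finset.sum_add_distrib]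
    exact Finset.sum_congr rfl fun j _ => by rw [Pi.add_apply, Int.cast_add, mul_add]
  have hya : ∀ n n' i, y (n + n') i = y n i + y n' i := by
    intro n n' i
    rw [hy, hy, hy, ← Finset.sum_add_distrib]
    exact Finset.sum_congr rfl fun j _ => by rw [Pi.add_apply, Int.cast_add, mul_add]
  refine ⟨fun n => exp (((Real.pi * ∑ i : Fin l, ((n (Sum.inl i) : ℝ) * (n (Sum.inr i) : ℝ) -
    x n i * y n i) : ℝ) : ℂ) * I), fun n => ?_, fun n n' => ?_⟩
  · exact Complex.norm_exp_ofReal_mul_I _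
  · simp only [← hx, ← hy]
    have hs := symp hM (fun j => (n j : ℝ)) (fun j => (n' j : ℝ))
    simp only [← hx, ← hy] at hs
    obtain ⟨k, hk⟩ : ∃ k : ℤ, k = ∑ i : Fin l, n (Sum.inl i) * n' (Sum.inr i) := ⟨_, rfl⟩
    rw [← Complex.exp_add, ← Complex.exp_add, Complex.exp_eq_exp_iff_exists_int]
    refine ⟨k, ?_⟩
    have h1 : (Real.pi * ∑ i : Fin l, (((n + n') (Sum.inl i) : ℝ) * ((n + n') (Sum.inr i) : ℝ) -
        x (n + n') i * y (n + n') i) : ℝ) =
        Real.pi * (∑ i : Fin l, ((n (Sum.inl i) : ℝ) * (n (Sum.inr i) : ℝ) - x n i * y n i)) +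
        Real.pi * (∑ i : Fin l, ((n' (Sum.inl i) : ℝ) * (n' (Sum.inr i) : ℝ) - x n' i * y n' i)) -
        2 * Real.pi * (∑ i : Fin l, y n' i * x n i) + k * (2 * Real.pi) := by
      have h2 : (k : ℝ) = ∑ i : Fin l, (n (Sum.inl i) : ℝ) * (n' (Sum.inr i) : ℝ) := by
        rw [hk]; push_cast; rfl
      have h3 : ∑ i : Fin l, (((n + n') (Sum.inl i) : ℝ) * ((n + n') (Sum.inr i) : ℝ) -
          x (n + n') i * y (n + n') i) =
          (∑ i : Fin l, ((n (Sum.inl i) : ℝ) * (n (Sum.inr i) : ℝ) - x n i * y n i)) +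
          (∑ i : Fin l, ((n' (Sum.inl i) : ℝ) * (n' (Sum.inr i) : ℝ) - x n' i * y n' i)) -
          2 * (∑ i : Fin l, y n' i * x n i) + 2 * k +
          (∑ i : Fin l, (x n i * y n' i - y n i * x n' i) -
            ∑ i : Fin l, ((n (Sum.inl i) : ℝ) * (n' (Sum.inr i) : ℝ) -
              (n (Sum.inr i) : ℝ) * (n' (Sum.inl i) : ℝ))) := by
        rw [h2, Finset.mul_sum, Finset.mul_sum, ← Finset.sum_add_distrib, ← Finset.sum_sub_distrib,
          ← Finset.sum_add_distrib, ← Finset.sum_sub_distrib, ← Finset.sum_add_distrib]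
        refine Finset.sum_congr rfl fun i _ => ?_
        rw [hxa, hya, Pi.add_apply, Pi.add_apply, Int.cast_add, Int.cast_add]
        ring
      rw [h3, hs]
      ring
    rw [h1]
    push_cast
    ring

end Pool.Agent.Q154.BL
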