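import Pool.Agent.Q83.BL.Stm

/-! # Project BL (helper83): S_UNI (helper154) -/

set_option autoImplicit false

namespace Pool.Agent.Q154.BL

open Q83.BL

theorem t_UNI : S_UNI := by
  intro ι H _ _ h φ hφ hR
  have hφ0 : ∀ i, φ i ≠ 0 := fun i h0 => by
    have h1 := hφ i
    rw [h0, norm_zero] at h1
    exact zero_ne_one h1
  obtain ⟨h1, A, B, hA, h2⟩ := hR
  have hs : Submodule.span ℂ (Set.range fun i => φ i • h i) = Submodule.span ℂ (Set.range h) := by
    refine le_antisymm (Submodule.span_le.2 ?_) (Submodule.span_le.2 ?_)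
    · rintro _ ⟨i, rfl⟩
      exact Submodule.smul_mem _ _ (Submodule.subset_span ⟨i, rfl⟩)
    · rintro _ ⟨i, rfl⟩
      have h3 : h i = (φ i)⁻¹ • (φ i • h i) := by rw [smul_smul, inv_mul_cancel₀ (hφ0 i), one_smul]
      rw [h3]
      exact Submodule.smul_mem _ _ (Submodule.subset_span ⟨i, rfl⟩)
  refine ⟨by rw [hs]; exact h1, A, B, hA, fun c => ?_⟩
  obtain ⟨c', hc'⟩ : ∃ c' : ι →₀ ℂ, ∀ i, c' i = c i * φ i :=
    ⟨Finsupp.onFinset c.support (fun i => c i * φ i) (fun i hi => by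
      rw [Finsupp.mem_support_iff]
      intro h0
      apply hi
      rw [h0, zero_mul]), fun i => rfl⟩
  have hsup : c'.support = c.support := by
    ext i
    rw [Finsupp.mem_support_iff, Finsupp.mem_support_iff, hc']
    constructor
    · intro h3 h4
      exact h3 (by rw [h4, zero_mul])
    · intro h3
      exact mul_ne_zero h3 (hφ0 i)
  have h3 := h2 c'
  rw [hsup] at h3
  have h4 : ∑ i ∈ c.support, ‖c' i‖ ^ 2 = ∑ i ∈ c.support, ‖c i‖ ^ 2 :=
    Finset.sum_congr rfl fun i _ => by rw [hc', norm_mul, hφ, mul_one]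
  have h5 : ∑ i ∈ c.support, c' i • h i = ∑ i ∈ c.support, c i • φ i • h i :=
    Finset.sum_congr rfl fun i _ => by rw [hc', mul_smul]
  rw [h4, h5] at h3
  exact h3

end Pool.Agent.Q154.BL
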